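import Pool.Agent.Helper10.RS.Goals

/-!
# Project RS (MP_82322d_al), packet BLK
-/

open Finset

namespace Pool.Agent.Helper70.RS

open Pool.Agent.Helper10.RS

theorem prod_Ioc_mul (a g : ℕ) : (∏ i ∈ Ioc a (a + g), i) * a.factorial = (a + g).factorial := by
  induction g with
  | zero => simp
  | succ g ih =>
    rw [← Nat.add_assoc, Finset.prod_Ioc_succ_top (by omega), Nat.factorial_succ, ← ih]
    ring

/-- the product of consecutive integers is a factorial times a binomial coefficient -/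
theorem prod_eq (N g : ℕ) (h : g ≤ N) :
    ∏ i ∈ Ioc (N - g) N, i = g.factorial * N.choose g := by
  have h1 := prod_Ioc_mul (N - g) g
  rw [Nat.sub_add_cancel h] at h1
  have h2 := Nat.choose_mul_factorial_mul_factorial h
  rw [← h2] at h1
  have h3 : 0 < (N - g).factorial := Nat.factorial_pos _
  apply Nat.eq_of_mul_eq_mul_right h3
  rw [h1]; ring

/-- no carries beyond `β` if no integer of the interval is divisible by `q^(β+1)` -/
theorem choose_bound (N g q β : ℕ) (hq : q.Prime) (h : g ≤ N) (hβ : g < q ^ (β + 1))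
    (hno : ∀ i ∈ Ioc (N - g) N, ¬ q ^ (β + 1) ∣ i) : (N.choose g).factorization q ≤ β := by
  rw [Nat.factorization_choose hq h (Nat.lt_succ_self _)]
  have hsub : ({i ∈ Ico 1 (Nat.log q N).succ | q ^ i ≤ g % q ^ i + (N - g) % q ^ i} : Finset ℕ) ⊆
      Icc 1 β := by
    intro t ht
    rw [mem_filter, mem_Ico] at ht
    rw [mem_Icc]
    refine ⟨ht.1.1, ?_⟩
    by_contra hlt
    push Not at hlt
    have hpos : 0 < q ^ t := pow_pos hq.pos t
    have hdvd : q ^ (β + 1) ∣ q ^ t := pow_dvd_pow q hlt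
    have hgt : g < q ^ t := lt_of_lt_of_le hβ (Nat.le_of_dvd hpos hdvd)
    have h1 := ht.2
    rw [Nat.mod_eq_of_lt hgt] at h1
    -- a multiple of q^t in the interval
    have h2 : (N - g) % q ^ t < q ^ t := Nat.mod_lt _ hpos
    have h3 := Nat.div_add_mod (N - g) (q ^ t)
    refine hno (q ^ t * ((N - g) / q ^ t + 1)) ?_ (hdvd.trans (Dvd.intro _ rfl))
    rw [mem_Ioc]
    constructor
    · rw [mul_add, mul_one]; omega
    · rw [mul_add, mul_one]; omega
  calc _ ≤ (Icc 1 β).card := card_le_card hsub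
    _ = β := by simp

/-- integers of an interval of length `g` in a residue class -/
theorem count_bound (a g r : ℕ) (i0 : ℕ) :
    (((Ioc a (a + g)).filter (fun i => i ≡ i0 [MOD r])).card) ≤ g / r + 1 := by
  have hinj : Set.InjOn (fun i => (i - (a + 1)) / r)
      (((Ioc a (a + g)).filter (fun i => i ≡ i0 [MOD r]) : Finset ℕ) : Set ℕ) := by
    intro i hi j hj hij
    simp only [coe_filter, mem_Ioc, Set.mem_ofPred_eq] at hi hj
    have h1 : i ≡ j [MOD r] := hi.2.trans hj.2.symm
    simp only at hij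
    have h2 : (i - (a + 1)) % r = (j - (a + 1)) % r := by
      have e1 : i = (i - (a + 1)) + (a + 1) := by omega
      have e2 : j = (j - (a + 1)) + (a + 1) := by omega
      rw [e1, e2] at h1
      exact Nat.ModEq.add_right_cancel' _ h1
    have h3 := Nat.div_add_mod (i - (a + 1)) r
    have h4 := Nat.div_add_mod (j - (a + 1)) r
    rw [hij, h2] at h3
    omega
  have hmaps : ∀ i ∈ (Ioc a (a + g)).filter (fun i => i ≡ i0 [MOD r]),
      (fun i => (i - (a + 1)) / r) i ∈ range (g / r + 1) := by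
    intro i hi
    rw [mem_filter, mem_Ioc] at hi
    rw [mem_range]
    have : (i - (a + 1)) / r ≤ g / r := Nat.div_le_div_right (by omega)
    simp only
    omega
  calc _ ≤ (range (g / r + 1)).card := card_le_card_of_injOn _ hmaps hinj
    _ = g / r + 1 := by simp

theorem count_odd (N g q t : ℕ) (hq : q.Prime) (hq2 : q ≠ 2) (h : g ≤ N) :
    (((Ioc (N - g) N).filter (fun i => q ^ t ∣ 2 * i - 1)).card) ≤ g / q ^ t + 1 := by
  rcases ((Ioc (N - g) N).filter (fun i => q ^ t ∣ 2 * i - 1)).eq_empty_or_nonempty with he | ⟨i0, hi0⟩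
  · rw [he]; simp
  · rw [mem_filter, mem_Ioc] at hi0
    have hsub : (Ioc (N - g) N).filter (fun i => q ^ t ∣ 2 * i - 1) ⊆
        (Ioc (N - g) (N - g + g)).filter (fun i => i ≡ i0 [MOD q ^ t]) := by
      intro i hi
      rw [mem_filter, mem_Ioc] at hi
      rw [mem_filter, mem_Ioc]
      refine ⟨⟨hi.1.1, by omega⟩, ?_⟩
      have hcop : Nat.Coprime (q ^ t) 2 :=
        Nat.Coprime.pow_left _ ((Nat.coprime_primes hq Nat.prime_two).2 hq2)
      have h1 : 2 * i - 1 ≡ 0 [MOD q ^ t] := (Nat.modEq_zero_iff_dvd).2 hi.2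
      have h2 : 2 * i0 - 1 ≡ 0 [MOD q ^ t] := (Nat.modEq_zero_iff_dvd).2 hi0.2
      have h3 : (2 * i - 1) + 1 ≡ (2 * i0 - 1) + 1 [MOD q ^ t] :=
        Nat.ModEq.add_right 1 (h1.trans h2.symm)
      have e1 : (2 * i - 1) + 1 = 2 * i := by omega
      have e2 : (2 * i0 - 1) + 1 = 2 * i0 := by omega
      rw [e1, e2] at h3
      exact Nat.ModEq.cancel_left_of_coprime hcop h3
    exact (card_le_card hsub).trans (count_bound _ _ _ _)

/-- the other bound -/
theorem odd_bound (N g q β : ℕ) (hq : q.Prime) (hq2 : q ≠ 2) (h : g ≤ N)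
    (hβ : Nat.log q g < β + 1)
    (hno : ∀ i ∈ Ioc (N - g) N, ¬ q ^ (β + 1) ∣ 2 * i - 1) :
    (∏ i ∈ Ioc (N - g) N, (2 * i - 1)).factorization q ≤ g.factorial.factorization q + β := by
  have h0 : ∀ i ∈ Ioc (N - g) N, 2 * i - 1 ≠ 0 := by
    intro i hi
    rw [mem_Ioc] at hi
    omega
  rw [Nat.factorization_prod h0]
  rw [Finsupp.finsetSum_apply]
  have h1 : ∀ i ∈ Ioc (N - g) N, (2 * i - 1).factorization q =
      ∑ t ∈ Ico 1 (β + 1), if q ^ t ∣ 2 * i - 1 then 1 else 0 := by
    intro i hi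
    have hle : (2 * i - 1).factorization q ≤ β := by
      by_contra hlt
      push Not at hlt
      exact hno i hi (((hq.pow_dvd_iff_le_factorization (h0 i hi)).2 hlt))
    rw [← Finset.sum_filter, ← Finset.card_eq_sum_ones]
    have : (Ico 1 (β + 1)).filter (fun t => q ^ t ∣ 2 * i - 1) =
        Icc 1 ((2 * i - 1).factorization q) := by
      ext t
      rw [mem_filter, mem_Ico, mem_Icc, hq.pow_dvd_iff_le_factorization (h0 i hi)]
      omega
    rw [this]; simp
  rw [Finset.sum_congr rfl h1, Finset.sum_comm]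
  rw [Nat.factorization_factorial hq hβ]
  have h2 : ∑ t ∈ Ico 1 (β + 1), ∑ i ∈ Ioc (N - g) N, (if q ^ t ∣ 2 * i - 1 then 1 else 0) ≤
      ∑ t ∈ Ico 1 (β + 1), (g / q ^ t + 1) := by
    refine Finset.sum_le_sum fun t _ => ?_
    rw [← Finset.sum_filter, ← Finset.card_eq_sum_ones]
    exact count_odd N g q t hq hq2 h
  refine h2.trans ?_
  rw [Finset.sum_add_distrib]
  simp

/-- the arithmetic part -/
theorem arith (N g : ℕ) (hg : 2 ≤ g) (h : g ≤ N)
    (hv : ∀ q : ℕ, q.Prime → q ≠ 2 → (∏ i ∈ Ioc (N - g) N, i).factorization q ≤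
      (∏ i ∈ Ioc (N - g) N, (2 * i - 1)).factorization q) :
    N.choose g ≤ N * Nat.lcmUpto (2 * g - 1) := by
  have hC : N.choose g ≠ 0 := (Nat.choose_pos h).ne'
  have key : ∀ q : ℕ, q.Prime → q ≠ 2 →
      (N.choose g).factorization q ≤ Nat.log q (2 * g - 1) := by
    intro q hq hq2
    have hβ : 2 * g - 1 < q ^ (Nat.log q (2 * g - 1) + 1) :=
      Nat.lt_pow_succ_log_self hq.one_lt _
    by_cases hno : ∀ i ∈ Ioc (N - g) N, ¬ q ^ (Nat.log q (2 * g - 1) + 1) ∣ i
    · exact choose_bound N g q _ hq h (by omega) hno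
    · push Not at hno
      obtain ⟨i, hi, hdi⟩ := hno
      have hno2 : ∀ j ∈ Ioc (N - g) N, ¬ q ^ (Nat.log q (2 * g - 1) + 1) ∣ 2 * j - 1 := by
        intro j hj hdj
        rw [mem_Ioc] at hi hj
        have h1 : ((q ^ (Nat.log q (2 * g - 1) + 1) : ℕ) : ℤ) ∣ 2 * (i : ℤ) - (2 * j - 1) := by
          have a1 : ((q ^ (Nat.log q (2 * g - 1) + 1) : ℕ) : ℤ) ∣ (i : ℤ) :=
            Int.natCast_dvd_natCast.2 hdi
          have a2 : ((q ^ (Nat.log q (2 * g - 1) + 1) : ℕ) : ℤ) ∣ ((2 * j - 1 : ℕ) : ℤ) :=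
            Int.natCast_dvd_natCast.2 hdj
          have a3 : ((2 * j - 1 : ℕ) : ℤ) = 2 * (j : ℤ) - 1 := by omega
          rw [a3] at a2
          exact dvd_sub (Dvd.dvd.mul_left a1 2) a2
        have h2 : (2 * (i : ℤ) - (2 * j - 1)) ≠ 0 := by omega
        have h3 := Int.le_of_dvd (abs_pos.2 h2) ((dvd_abs _ _).2 h1)
        have h4 : |2 * (i : ℤ) - (2 * j - 1)| ≤ 2 * g - 1 := by
          rw [abs_le]; constructor <;> omega
        have h5 : ((2 * g - 1 : ℕ) : ℤ) < ((q ^ (Nat.log q (2 * g - 1) + 1) : ℕ) : ℤ) := by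
          exact_mod_cast hβ
        have h6 : ((2 * g - 1 : ℕ) : ℤ) = 2 * (g : ℤ) - 1 := by omega
        rw [h6] at h5
        linarith
      have h1 := odd_bound N g q _ hq hq2 h
        (Nat.lt_succ_of_le (Nat.log_mono_right (by omega : g ≤ 2 * g - 1))) hno2
      have h2 := hv q hq hq2
      rw [prod_eq N g h, Nat.factorization_mul (Nat.factorial_ne_zero g) hC,
        Finsupp.add_apply] at h2
      omega
  have hdvd : N.choose g ∣ 2 ^ ((N.choose g).factorization 2) * Nat.lcmUpto (2 * g - 1) := by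
    rw [← Nat.factorization_prime_le_iff_dvd hC
      (mul_ne_zero (by positivity) (Nat.lcmUpto_ne_zero _))]
    intro q hq
    rw [Nat.factorization_mul (by positivity) (Nat.lcmUpto_ne_zero _), Finsupp.add_apply]
    by_cases hq2 : q = 2
    · subst hq2
      rw [Nat.Prime.factorization_pow Nat.prime_two]
      simp
    · have := key q hq hq2
      rw [Nat.factorization_lcmUpto _ hq]
      omega
  have h1 : 2 ^ ((N.choose g).factorization 2) ≤ N :=
    Nat.pow_factorization_choose_le (by omega)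
  refine (Nat.le_of_dvd ?_ hdvd).trans (Nat.mul_le_mul_right _ h1)
  exact Nat.mul_pos (by positivity) (Nat.lcmUpto_pos _)

/-- the lower bound for the binomial coefficient -/
theorem choose_lower (N g : ℕ) (hg : 1 ≤ g) (h : 2 * g ≤ N) :
    (g : ℝ) * Real.log ((N : ℝ) / (2 * g)) ≤ Real.log (N.choose g) := by
  have h1 : ((N + 1 - g : ℕ) : ℝ) ^ g ≤ g.factorial * N.choose g := by
    have := Nat.pow_le_choose (α := ℝ) g N
    rw [div_le_iff₀ (by positivity)] at this
    linarith
  have h2 : (g.factorial : ℝ) ≤ (g : ℝ) ^ g := by exact_mod_cast Nat.factorial_le_pow g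
  have hgp : (0 : ℝ) < g := by exact_mod_cast hg
  have hC : (0 : ℝ) < (N.choose g : ℝ) := by exact_mod_cast Nat.choose_pos (by omega)
  have h3 : (N : ℝ) / 2 ≤ ((N + 1 - g : ℕ) : ℝ) := by
    have : (N + 1 - g : ℕ) = N + 1 - g := rfl
    rw [Nat.cast_sub (by omega)]
    push_cast
    have : (2 : ℝ) * g ≤ N := by exact_mod_cast h
    linarith
  have h4 : ((N : ℝ) / (2 * g)) ^ g ≤ N.choose g := by
    have e : (N : ℝ) / (2 * g) = (N / 2) / g := by field_simp
    rw [e, div_pow, div_le_iff₀ (by positivity)]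
    calc ((N : ℝ) / 2) ^ g ≤ ((N + 1 - g : ℕ) : ℝ) ^ g :=
          pow_le_pow_left₀ (by positivity) h3 g
      _ ≤ g.factorial * N.choose g := h1
      _ ≤ (g : ℝ) ^ g * N.choose g := mul_le_mul_of_nonneg_right h2 hC.le
      _ = N.choose g * (g : ℝ) ^ g := mul_comm _ _
  have hN : (0 : ℝ) < N := by exact_mod_cast (by omega : 0 < N)
  have h5 := Real.log_le_log (by positivity) h4
  rwa [Real.log_pow] at h5

theorem p_blk : BLK := by
  refine ⟨Real.exp (-15) / 2, ⌈Real.exp 40⌉₊, by positivity, ?_⟩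
  intro N g hN hg hle
  by_contra hcon
  push Not at hcon
  have hgp : (2 : ℝ) ≤ g := by exact_mod_cast hg
  have hN1 : Real.exp 40 ≤ N := (Nat.le_ceil _).trans (by exact_mod_cast hN)
  have hNpos : (0 : ℝ) < N := lt_of_lt_of_le (Real.exp_pos _) hN1
  have he15 : Real.exp (-15) ≤ 1 := Real.exp_le_one_iff.2 (by norm_num)
  have h2g : 2 * g ≤ N := by
    have : (2 : ℝ) * g ≤ N := by nlinarith
    exact_mod_cast this
  have hgN : g ≤ N := by omega
  have hA := arith N g hg hgN (fun q hq hq2 => hcon q hq hq2)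
  have hL := choose_lower N g (by omega) h2g
  -- upper bound
  have hCpos : (0 : ℝ) < (N.choose g : ℝ) := by exact_mod_cast Nat.choose_pos hgN
  have hlcm : (0 : ℝ) < (Nat.lcmUpto (2 * g - 1) : ℝ) := by
    exact_mod_cast Nat.lcmUpto_pos _
  have hA' : (N.choose g : ℝ) ≤ N * Nat.lcmUpto (2 * g - 1) := by exact_mod_cast hA
  have hU := Real.log_le_log hCpos hA'
  rw [Real.log_mul hNpos.ne' hlcm.ne', ← Chebyshev.psi_eq_log_lcmUpto] at hU
  have hpsi := Chebyshev.psi_le_const_mul_self (x := ((2 * g - 1 : ℕ) : ℝ)) (by positivity)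
  have hcast : ((2 * g - 1 : ℕ) : ℝ) = 2 * g - 1 := by
    rw [Nat.cast_sub (by omega)]; push_cast; ring
  rw [hcast] at hpsi hU
  have hlog4 : Real.log 4 ≤ 1.39 := by
    have : (4 : ℝ) = 2 ^ 2 := by norm_num
    rw [this, Real.log_pow]
    have := Real.log_two_lt_d9
    push_cast
    linarith
  have hup : Real.log (N.choose g) ≤ Real.log N + 10.78 * g := by nlinarith
  have hmain : (g : ℝ) * Real.log ((N : ℝ) / (2 * g)) ≤ Real.log N + 10.78 * g := hL.trans hup
  have hg0 : (0 : ℝ) < g := by linarith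
  -- first: the logarithm is at least 15
  have h15 : (15 : ℝ) ≤ Real.log ((N : ℝ) / (2 * g)) := by
    rw [Real.le_log_iff_exp_le (by positivity), le_div_iff₀ (by positivity)]
    have : Real.exp 15 * (2 * (Real.exp (-15) / 2 * N)) = N := by
      have e : Real.exp 15 * Real.exp (-15) = 1 := by rw [← Real.exp_add]; norm_num
      calc Real.exp 15 * (2 * (Real.exp (-15) / 2 * N)) =
          (Real.exp 15 * Real.exp (-15)) * N := by ring
        _ = N := by rw [e, one_mul]
    calc Real.exp 15 * (2 * (g : ℝ)) ≤ Real.exp 15 * (2 * (Real.exp (-15) / 2 * N)) := by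
          gcongr
      _ = N := this
  have hgl : 2 * (g : ℝ) ≤ Real.log N := by nlinarith
  have hx : (40 : ℝ) ≤ Real.log N := by
    rw [Real.le_log_iff_exp_le hNpos]; exact hN1
  have hlogpos : (0 : ℝ) < Real.log N := by linarith
  have h3 : Real.log N - Real.log (Real.log N) ≤ Real.log ((N : ℝ) / (2 * g)) := by
    rw [Real.log_div hNpos.ne' (by positivity)]
    have := Real.log_le_log (by positivity) hgl
    linarith
  have hll : Real.log (Real.log N) ≤ 3.72 + Real.log N / 40 - 1 := by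
    have h40 : Real.log 40 ≤ 3.72 := by
      have e : (40 : ℝ) = 2 ^ 5 * (5 / 4) := by norm_num
      rw [e, Real.log_mul (by norm_num) (by norm_num), Real.log_pow]
      have h1 := Real.log_two_lt_d9
      have h2 : Real.log (5 / 4 : ℝ) ≤ 5 / 4 - 1 := Real.log_le_sub_one_of_pos (by norm_num)
      push_cast
      linarith
    have h4 : Real.log (Real.log N / 40) ≤ Real.log N / 40 - 1 :=
      Real.log_le_sub_one_of_pos (by positivity)
    rw [Real.log_div hlogpos.ne' (by norm_num)] at h4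
    linarith
  nlinarith

end Pool.Agent.Helper70.RS
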